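import Pool.Agent.helper60.DB.SpecM

/-!
# Row bm:OO, isogenies of odd degree act on heights and types
-/

namespace Pool.Agent.helper60.DB

open Polynomial

section
variable {K : Type} [Field K]

/-- homogenisation of degree `k` -/
noncomputable def OO_hom (k : ℕ) (N D P : K[X]) : K[X] :=
  ∑ i ∈ Finset.range (k + 1), C (P.coeff i) * N ^ i * D ^ (k - i)

theorem OO_hom_deg {k d : ℕ} {N D : K[X]} (hN : N.natDegree ≤ d) (hD : D.natDegree ≤ d)
    (P : K[X]) : (OO_hom k N D P).natDegree ≤ k * d := by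
  unfold OO_hom
  apply natDegree_sum_le_of_forall_le
  intro i hi
  have hi' : i ≤ k := Nat.lt_succ_iff.1 (Finset.mem_range.1 hi)
  calc (C (P.coeff i) * N ^ i * D ^ (k - i)).natDegree
      ≤ (C (P.coeff i) * N ^ i).natDegree + (D ^ (k - i)).natDegree := natDegree_mul_le
    _ ≤ ((C (P.coeff i)).natDegree + (N ^ i).natDegree) + (D ^ (k - i)).natDegree :=
        Nat.add_le_add_right natDegree_mul_le _
    _ ≤ (0 + i * d) + (k - i) * d := by
        rw [natDegree_C]
        refine Nat.add_le_add (Nat.add_le_add le_rfl ?_) ?_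
        · exact le_trans natDegree_pow_le (Nat.mul_le_mul_left _ hN)
        · exact le_trans natDegree_pow_le (Nat.mul_le_mul_left _ hD)
    _ = k * d := by
        rw [zero_add, ← Nat.add_mul, Nat.add_sub_cancel' hi']

theorem OO_hom_eq {k : ℕ} {N D P : K[X]} {ψ : PowerSeries K} (hP : P.natDegree ≤ k)
    (hψ : (D : PowerSeries K) * ψ = (N : PowerSeries K)) :
    (D : PowerSeries K) ^ k * aeval ψ P = (OO_hom k N D P : PowerSeries K) := by
  rw [aeval_eq_sum_range' (Nat.lt_succ_of_le hP), Finset.mul_sum]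
  unfold OO_hom
  have h1 : ((∑ i ∈ Finset.range (k + 1), C (P.coeff i) * N ^ i * D ^ (k - i) : K[X]) :
      PowerSeries K) = ∑ i ∈ Finset.range (k + 1),
        ((C (P.coeff i) * N ^ i * D ^ (k - i) : K[X]) : PowerSeries K) := by
    have h := map_sum (Polynomial.coeToPowerSeries.ringHom (R := K))
      (fun i => C (P.coeff i) * N ^ i * D ^ (k - i)) (Finset.range (k + 1))
    simp only [Polynomial.coeToPowerSeries.ringHom_apply] at h
    exact h
  rw [h1]
  refine Finset.sum_congr rfl fun i hi => ?_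
  have hi' : i ≤ k := Nat.lt_succ_iff.1 (Finset.mem_range.1 hi)
  rw [Polynomial.coe_mul, Polynomial.coe_mul, Polynomial.coe_pow, Polynomial.coe_pow,
    Polynomial.coe_C, ← hψ, mul_pow]
  have h2 : (D : PowerSeries K) ^ k = (D : PowerSeries K) ^ i * (D : PowerSeries K) ^ (k - i) := by
    rw [← pow_add, Nat.add_sub_cancel' hi']
  rw [h2, PowerSeries.smul_eq_C_mul]
  ring

theorem OO_const {Q : K[X]} {ψ : PowerSeries K} (hψ : PowerSeries.constantCoeff ψ = 0)
    (hQ : Q.coeff 0 = 1) : PowerSeries.constantCoeff (aeval ψ Q) = 1 := by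
  rw [aeval_eq_sum_range, map_sum, Finset.sum_eq_single 0]
  · rw [pow_zero, PowerSeries.smul_eq_C_mul, mul_one, PowerSeries.constantCoeff_C, hQ]
  · intro i _ hi
    rw [PowerSeries.smul_eq_C_mul, map_mul, map_pow, hψ, zero_pow hi, mul_zero]
  · intro h
    exact absurd (Finset.mem_range.2 (Nat.succ_pos _)) h

end

theorem OO (hRR : RR_stmt) (hMO : MO_stmt) : OO_stmt := by
  intro K _ _ A B A' B' A'' B'' μ P Q q y k hy hOI hP hQ α g u e d hMl hTy hHt
  obtain ⟨hRp, hRC, hRX, hRop, hRdiv⟩ := hRR K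
  obtain ⟨g', u', hMl', hg', hu'⟩ := hMO K A' B' A'' B'' μ α P Q q y g u hOI hMl
  obtain ⟨N, D, hD0, hNd, hDd, hND⟩ := hHt
  set ψ : PowerSeries K := PowerSeries.X * g ^ 2 with hψ
  have hψ0 : PowerSeries.constantCoeff ψ = 0 := by
    rw [hψ, map_mul, PowerSeries.constantCoeff_X, zero_mul]
  have hD0' : (D : PowerSeries K) ≠ 0 := by
    intro h
    exact hD0 (Polynomial.coe_injective K (by rw [h, Polynomial.coe_zero]))
  -- values of polynomials at `ψ` are rational
  have hRψ : ∀ f : K[X], Rt (aeval ψ f) := by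
    intro f
    exact ⟨OO_hom f.natDegree N D f, D ^ f.natDegree, pow_ne_zero _ hD0, by
      rw [Polynomial.coe_pow]; exact OO_hom_eq le_rfl hND⟩
  have hQ1 : PowerSeries.constantCoeff (aeval ψ Q) = 1 := OO_const hψ0 hOI.q0
  have hQ0 : aeval ψ Q ≠ 0 := by
    intro h
    rw [h, map_zero] at hQ1
    exact zero_ne_one hQ1
  have hQ2 : (aeval ψ Q) ^ 2 ≠ 0 := pow_ne_zero _ hQ0
  have hRQ2 : Rt ((aeval ψ Q) ^ 2) := by
    rw [sq]
    exact (hRop _ _ (hRψ Q) (hRψ Q)).2.1
  have hmul : ∀ f f' : PowerSeries K, Rt f → Rt f' → Rt (f * f') :=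
    fun f f' h h' => (hRop f f' h h').2.1
  refine ⟨g', u', hMl', ⟨?_, ?_⟩, ?_⟩
  · intro he
    rw [one_mul] at he
    obtain ⟨h1, h2⟩ := hTy.1 he
    refine ⟨hRdiv _ _ _ (hRψ Q) (hmul _ _ h1 (hRψ P)) hQ0 hg', ?_⟩
    refine hRdiv _ _ _ hRQ2 (hmul _ _ h2 (hRψ q)) hQ2 ?_
    calc (aeval ψ Q) ^ 2 * (y * u') = y * ((aeval ψ Q) ^ 2 * u') := by ring
      _ = y * (u * aeval ψ q) := by rw [hu']
      _ = y * u * aeval ψ q := by ring
  · intro he
    rw [one_mul] at he
    obtain ⟨h1, h2⟩ := hTy.2 he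
    refine ⟨?_, hRdiv _ _ _ hRQ2 (hmul _ _ h2 (hRψ q)) hQ2 hu'⟩
    refine hRdiv _ _ _ (hRψ Q) (hmul _ _ h1 (hRψ P)) hQ0 ?_
    calc aeval ψ Q * (y * g') = y * (aeval ψ Q * g') := by ring
      _ = y * (g * aeval ψ P) := by rw [hg']
      _ = y * g * aeval ψ P := by ring
  · have hPe := OO_hom_eq hP hND
    have hQe := OO_hom_eq hQ hND
    have hhQ : OO_hom k N D Q ≠ 0 := by
      intro h
      rw [h, Polynomial.coe_zero] at hQe
      rcases mul_eq_zero.1 hQe with h1 | h1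
      · exact pow_ne_zero _ hD0' h1
      · exact hQ0 h1
    have hdeg : ∀ (R M : K[X]), R.natDegree ≤ k * d → M.natDegree ≤ d →
        (M * R ^ 2).natDegree ≤ (2 * k + 1) * d := by
      intro R M hR hM
      calc (M * R ^ 2).natDegree ≤ M.natDegree + (R ^ 2).natDegree := natDegree_mul_le
        _ ≤ d + 2 * (k * d) :=
            Nat.add_le_add hM (le_trans natDegree_pow_le (Nat.mul_le_mul_left _ hR))
        _ = (2 * k + 1) * d := by ring
    refine ⟨N * OO_hom k N D P ^ 2, D * OO_hom k N D Q ^ 2,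
      mul_ne_zero hD0 (pow_ne_zero _ hhQ), hdeg _ _ (OO_hom_deg hNd hDd P) hNd,
      hdeg _ _ (OO_hom_deg hNd hDd Q) hDd, ?_⟩
    rw [Polynomial.coe_mul, Polynomial.coe_mul, Polynomial.coe_pow, Polynomial.coe_pow, ← hPe,
      ← hQe, ← hND]
    calc (D : PowerSeries K) * ((D : PowerSeries K) ^ k * aeval ψ Q) ^ 2 *
          (PowerSeries.X * g' ^ 2)
        = (D : PowerSeries K) * ((D : PowerSeries K) ^ k) ^ 2 * PowerSeries.X *
            (aeval ψ Q * g') ^ 2 := by ring
      _ = (D : PowerSeries K) * ((D : PowerSeries K) ^ k) ^ 2 * PowerSeries.X *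
            (g * aeval ψ P) ^ 2 := by rw [hg']
      _ = (D : PowerSeries K) * (PowerSeries.X * g ^ 2) *
            ((D : PowerSeries K) ^ k * aeval ψ P) ^ 2 := by ring
      _ = (D : PowerSeries K) * ψ * ((D : PowerSeries K) ^ k * aeval ψ P) ^ 2 := by rw [hψ]

end Pool.Agent.helper60.DB
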