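import Pool.Agent.helper60.DB.SpecC

namespace Pool.Agent.helper60.DB

open Polynomial Finset

theorem XJ_coeff {R : Type} [CommRing R] (F : PowerSeries R) (m : ℕ) :
    PowerSeries.coeff m (F + EE F) = (2 * (m : R) + 1) * PowerSeries.coeff m F := by
  have h2 : (2 : PowerSeries R) = PowerSeries.C (2 : R) := (map_ofNat PowerSeries.C 2).symm
  rw [EE, map_add, mul_assoc, h2, PowerSeries.coeff_C_mul]
  cases m with
  | zero => simp
  | succ n =>
    rw [PowerSeries.coeff_succ_X_mul]
    have : PowerSeries.coeff n (PowerSeries.derivative R F)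
        = PowerSeries.coeff (n + 1) F * ((n : R) + 1) := PowerSeries.coeff_derivative F n
    rw [this]
    push_cast
    ring

theorem XJ_der {R : Type} [CommRing R] (g : PowerSeries R) (j : ℕ) :
    (PowerSeries.X ^ j * g ^ (2 * j + 1)) + EE (PowerSeries.X ^ j * g ^ (2 * j + 1))
      = (2 * (j : PowerSeries R) + 1) * (PowerSeries.X ^ j * g ^ (2 * j) * (g + EE g)) := by
  have hd : PowerSeries.derivative R (PowerSeries.X : PowerSeries R) = 1 :=
    PowerSeries.derivative_X
  rw [EE, EE, Derivation.leibniz, Derivation.leibniz_pow, Derivation.leibniz_pow, hd]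
  simp only [smul_eq_mul, nsmul_eq_mul]
  cases j with
  | zero => simp
  | succ n =>
    rw [show n + 1 - 1 = n by omega, show 2 * (n + 1) + 1 - 1 = 2 * (n + 1) by omega]
    push_cast
    ring

theorem XJ : XJ_stmt := by
  intro R _ g j m hj
  have h1 := XJ_coeff (PowerSeries.X ^ j * g ^ (2 * j + 1)) m
  rw [XJ_der] at h1
  have h2 : (PowerSeries.C (2 : R)) = (2 : PowerSeries R) := map_ofNat PowerSeries.C 2
  have h3 : (2 * (j : PowerSeries R) + 1) = PowerSeries.C (2 * (j : R) + 1) := by
    rw [map_add, map_mul, h2, map_natCast, map_one]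
  rw [h3, PowerSeries.coeff_C_mul, PowerSeries.coeff_X_pow_mul', if_pos hj] at h1
  exact h1

end Pool.Agent.helper60.DB
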